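import Mathlib
set_option autoImplicit false
noncomputable section
open Finset

namespace Pool.Agent.Helper549.ZS

/-- `N y I T` is the number of subsets `B ⊆ I` with `∑_{i ∈ B} y i ∈ T`. -/
def N {ι : Type*} [DecidableEq ι] (y : ι → ℝ) (I : Finset ι) (T : Set ℝ) : ℕ :=
  by classical exact (I.powerset.filter (fun B => ∑ i ∈ B, y i ∈ T)).card

/-- `G j x = ∑_k C(j,k) sign (x + j - 2k)`, defined recursively -/
def G : ℕ → ℤ → ℤ
  | 0, x => x.sign
  | (j + 1), x => G j (x + 1) + G j (x - 1)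

/-- largest binomial coefficient, normalised -/
def lam (j : ℕ) : ℝ := (j.choose (j / 2) : ℝ) / 2 ^ j

/-- odd and concave on the nonnegative integers -/
structure OC (g : ℤ → ℤ) : Prop where
  odd : ∀ x, g (-x) = - g x
  conc : ∀ x, 0 ≤ x → g (x + 1) + g (x - 1) ≤ 2 * g x

/-- translate `T - a` -/
def sh (T : Finset ℝ) (a : ℝ) : Finset ℝ := T.image (fun t => t - a)

/-- `L` consecutive points `a, a+1, ..., a+L-1` -/
def seg (a : ℝ) (L : ℕ) : Set ℝ := {t | ∃ k : ℕ, k < L ∧ t = a + k}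

end Pool.Agent.Helper549.ZS
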