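import Mathlib
import Pool.Agent.Helper549.ZS.Defs
set_option autoImplicit false
noncomputable section
open Finset

namespace Pool.Agent.Helper549.ZS.A

theorem G_neg (j : ℕ) (x : ℤ) : G j (-x) = - G j x := by
  induction j generalizing x with
  | zero => simp [G]
  | succ j ih =>
    have h1 : -x + 1 = -(x - 1) := by ring
    have h2 : -x - 1 = -(x + 1) := by ring
    simp only [G]
    rw [h1, h2, ih, ih]
    ring

theorem G_conc (j : ℕ) (x : ℤ) (hx : 0 ≤ x) : G j (x + 1) + G j (x - 1) ≤ 2 * G j x := by
  induction j generalizing x with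
  | zero =>
    simp only [G]
    rcases hx.lt_or_eq with h | h
    · rw [Int.sign_eq_one_of_pos h, Int.sign_eq_one_of_pos (by omega : 0 < x + 1)]
      rcases (by omega : 0 < x - 1 ∨ x - 1 = 0) with h2 | h2
      · rw [Int.sign_eq_one_of_pos h2]; norm_num
      · rw [h2]; norm_num
    · subst h
      norm_num
  | succ j ih =>
    simp only [G]
    rcases hx.lt_or_eq with h | h
    · have h1 := ih (x + 1) (by omega)
      have h2 := ih (x - 1) (by omega)
      linarith
    · subst h
      have h1 := G_neg j 1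
      have h2 := G_neg j 2
      have h3 := G_neg j 0
      norm_num at *
      linarith

/-- binomial coefficients with an integer lower index -/
def c11724 : ℕ → ℤ → ℤ
  | 0, k => if k = 0 then 1 else 0
  | (j + 1), k => c11724 j k + c11724 j (k - 1)

theorem c11724_neg (j : ℕ) (k : ℤ) (hk : k < 0) : c11724 j k = 0 := by
  induction j generalizing k with
  | zero => simp only [c11724]; rw [if_neg (by omega)]
  | succ j ih => simp only [c11724]; rw [ih k hk, ih (k - 1) (by omega)]; rfl

theorem c11724_nat (j k : ℕ) : c11724 j (k : ℤ) = (j.choose k : ℤ) := by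
  induction j generalizing k with
  | zero =>
    cases k with
    | zero => simp [c11724]
    | succ k => simp only [c11724]; rw [if_neg (by omega)]; simp
  | succ j ih =>
    cases k with
    | zero =>
      simp only [c11724]
      have h1 := ih 0
      have h2 := c11724_neg j (-1) (by norm_num)
      norm_num at h1 h2 ⊢
      rw [h1, h2]; norm_num
    | succ k =>
      simp only [c11724]
      have h1 := ih (k + 1)
      have h2 := ih k
      have h3 : ((k + 1 : ℕ) : ℤ) - 1 = (k : ℤ) := by push_cast; ring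
      rw [h3, h1, h2, Nat.choose_succ_succ]
      push_cast
      ring

theorem G_diff (j : ℕ) (m : ℤ) :
    G j (2 * m - j + 1) - G j (2 * m - j - 1) = 2 * c11724 j m ∧
    G j (2 * m + 1 - j + 1) - G j (2 * m + 1 - j - 1) = c11724 j m + c11724 j (m + 1) := by
  induction j generalizing m with
  | zero =>
    simp only [G, c11724, Nat.cast_zero, sub_zero]
    rcases lt_trichotomy m 0 with h | h | h
    · constructor
      · rw [Int.sign_eq_neg_one_of_neg (by omega), Int.sign_eq_neg_one_of_neg (by omega),
          if_neg (by omega)]; norm_num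
      · rcases (by omega : m = -1 ∨ m < -1) with h2 | h2
        · subst h2; norm_num
        · rw [Int.sign_eq_neg_one_of_neg (by omega), Int.sign_eq_neg_one_of_neg (by omega),
            if_neg (by omega), if_neg (by omega)]; norm_num
    · subst h; norm_num
    · constructor
      · rw [Int.sign_eq_one_of_pos (by omega), Int.sign_eq_one_of_pos (by omega),
          if_neg (by omega)]; norm_num
      · rw [Int.sign_eq_one_of_pos (by omega), Int.sign_eq_one_of_pos (by omega),
          if_neg (by omega), if_neg (by omega)]; norm_num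
  | succ j ih =>
    simp only [G, c11724]
    have h1 := ih m
    have h2 := ih (m - 1)
    have e1 : 2 * m - ((j + 1 : ℕ) : ℤ) + 1 + 1 = 2 * m - j + 1 := by push_cast; ring
    have e2 : 2 * m - ((j + 1 : ℕ) : ℤ) + 1 - 1 = 2 * m - j - 1 := by push_cast; ring
    have e3 : 2 * m - ((j + 1 : ℕ) : ℤ) - 1 + 1 = 2 * (m - 1) - j + 1 := by push_cast; ring
    have e4 : 2 * m - ((j + 1 : ℕ) : ℤ) - 1 - 1 = 2 * (m - 1) - j - 1 := by push_cast; ring
    have e5 : 2 * m + 1 - ((j + 1 : ℕ) : ℤ) + 1 + 1 = 2 * m + 1 - j + 1 := by push_cast; ring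
    have e6 : 2 * m + 1 - ((j + 1 : ℕ) : ℤ) + 1 - 1 = 2 * m + 1 - j - 1 := by push_cast; ring
    have e7 : 2 * m + 1 - ((j + 1 : ℕ) : ℤ) - 1 + 1 = 2 * (m - 1) + 1 - j + 1 := by push_cast; ring
    have e8 : 2 * m + 1 - ((j + 1 : ℕ) : ℤ) - 1 - 1 = 2 * (m - 1) + 1 - j - 1 := by push_cast; ring
    have e9 : m - 1 + 1 = m := by ring
    have e10 : m + 1 - 1 = m := by ring
    rw [e1, e2, e3, e4, e5, e6, e7, e8, e10]
    rw [e9] at h2
    obtain ⟨a1, a2⟩ := h1
    obtain ⟨b1, b2⟩ := h2
    have f1 : 2 * (m - 1) - (j : ℤ) + 1 = 2 * m - j - 1 := by ring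
    have f2 : 2 * (m - 1) + 1 - (j : ℤ) + 1 = 2 * m + 1 - j - 1 := by ring
    rw [f1] at b1
    rw [f2] at b2
    rw [f1, f2]
    constructor <;> linarith

theorem G_one (j : ℕ) : G j 1 = (j.choose (j / 2) : ℤ) := by
  have hneg := G_neg j 1
  rcases Nat.even_or_odd' j with ⟨m, hm | hm⟩
  · have h1 := (G_diff j m).1
    have e1 : 2 * (m : ℤ) - j + 1 = 1 := by rw [hm]; push_cast; ring
    have e2 : 2 * (m : ℤ) - j - 1 = -1 := by rw [hm]; push_cast; ring
    have e3 : j / 2 = m := by omega
    rw [e1, e2, hneg, c11724_nat] at h1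
    rw [e3]
    linarith
  · have h1 := (G_diff j m).2
    have e1 : 2 * (m : ℤ) + 1 - j + 1 = 1 := by rw [hm]; push_cast; ring
    have e2 : 2 * (m : ℤ) + 1 - j - 1 = -1 := by rw [hm]; push_cast; ring
    have e3 : j / 2 = m := by omega
    have h2 := c11724_nat j (m + 1)
    have e4 : ((m + 1 : ℕ) : ℤ) = (m : ℤ) + 1 := by push_cast; ring
    rw [e4] at h2
    have h3 : j.choose (m + 1) = j.choose m := by
      have := Nat.choose_symm_of_eq_add (n := j) (a := m + 1) (b := m) (by omega)
      exact this
    rw [e1, e2, hneg, c11724_nat, h2, h3] at h1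
    rw [e3]
    linarith

end Pool.Agent.Helper549.ZS.A
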