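import Mathlib
import Pool.Agent.Helper549.ZS.Defs
set_option autoImplicit false
noncomputable section
open Finset

namespace Pool.Agent.Helper549.ZS.C

open Classical in
theorem N_eq_h845 {ι : Type*} [DecidableEq ι] (y : ι → ℝ) (I : Finset ι) (T : Set ℝ) :
    N y I T = ∑ B ∈ I.powerset, if ∑ i ∈ B, y i ∈ T then 1 else 0 := by
  unfold N
  rw [Finset.card_filter]

theorem N_insert {ι : Type*} [DecidableEq ι] (y : ι → ℝ) (I : Finset ι) (i : ι) (hi : i ∉ I)
    (T : Set ℝ) : N y (insert i I) T = N y I T + N y I {t | t + y i ∈ T} := by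
  classical
  rw [N_eq_h845, N_eq_h845, N_eq_h845, Finset.sum_powerset_insert hi]
  congr 1
  refine Finset.sum_congr rfl fun B hB => ?_
  have hiB : i ∉ B := fun h => hi (Finset.mem_powerset.mp hB h)
  rw [Finset.sum_insert hiB, add_comm (y i)]
  rfl

theorem N_modular {ι : Type*} [DecidableEq ι] (y : ι → ℝ) (I : Finset ι) (U V : Set ℝ) :
    N y I (U ∪ V) + N y I (U ∩ V) = N y I U + N y I V := by
  classical
  rw [N_eq_h845, N_eq_h845, N_eq_h845, N_eq_h845, ← Finset.sum_add_distrib, ← Finset.sum_add_distrib]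
  refine Finset.sum_congr rfl fun B hB => ?_
  by_cases h1 : ∑ i ∈ B, y i ∈ U <;> by_cases h2 : ∑ i ∈ B, y i ∈ V <;>
    simp [h1, h2]

theorem N_empty_set {ι : Type*} [DecidableEq ι] (y : ι → ℝ) (I : Finset ι) : N y I ∅ = 0 := by
  rw [N_eq_h845]
  simp

theorem N_empty_index {ι : Type*} [DecidableEq ι] (y : ι → ℝ) (T : Set ℝ) [Decidable ((0:ℝ) ∈ T)] :
    N y ∅ T = if (0:ℝ) ∈ T then 1 else 0 := by
  rw [N_eq_h845, Finset.powerset_empty, Finset.sum_singleton, Finset.sum_empty]
  by_cases h : (0:ℝ) ∈ T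
  · rw [if_pos h, if_pos h]
  · rw [if_neg h, if_neg h]

theorem N_mono {ι : Type*} [DecidableEq ι] (y : ι → ℝ) (I : Finset ι) (U V : Set ℝ) (h : U ⊆ V) :
    N y I U ≤ N y I V := by
  classical
  rw [N_eq_h845, N_eq_h845]
  refine Finset.sum_le_sum fun B hB => ?_
  by_cases h1 : ∑ i ∈ B, y i ∈ U
  · rw [if_pos h1, if_pos (h h1)]
  · rw [if_neg h1]; exact Nat.zero_le _

theorem N_union_le {ι : Type*} [DecidableEq ι] (y : ι → ℝ) (I : Finset ι) (U V : Set ℝ) :
    N y I (U ∪ V) ≤ N y I U + N y I V := by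
  rw [← N_modular]
  exact Nat.le_add_right _ _

/-- scaling -/
theorem N_scale {ι : Type*} [DecidableEq ι] (y : ι → ℝ) (I : Finset ι) (c : ℝ) (hc : c ≠ 0) :
    N (fun i => c * y i) I {0} = N y I {0} := by
  classical
  rw [N_eq_h845, N_eq_h845]
  refine Finset.sum_congr rfl fun B hB => ?_
  rw [← Finset.mul_sum]
  simp [hc]

/-- zero entries -/
theorem N_zeros {ι : Type*} [DecidableEq ι] (y : ι → ℝ) (I J : Finset ι) (hd : Disjoint I J)
    (h0 : ∀ i ∈ J, y i = 0) (T : Set ℝ) : N y (I ∪ J) T = 2 ^ J.card * N y I T := by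
  induction J using Finset.induction_on with
  | empty => simp
  | insert j J hj ih =>
    have hjI : j ∉ I := fun h => Finset.disjoint_left.mp hd h (Finset.mem_insert_self _ _)
    have hj' : j ∉ I ∪ J := by
      rw [Finset.mem_union]
      tauto
    have hd' : Disjoint I J := Finset.disjoint_of_subset_right (Finset.subset_insert _ _) hd
    rw [Finset.union_insert, N_insert y (I ∪ J) j hj' T, h0 j (Finset.mem_insert_self _ _)]
    have hT : {t : ℝ | t + 0 ∈ T} = T := by
      ext t; simp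
    rw [hT, ih hd' (fun i hi => h0 i (Finset.mem_insert_of_mem hi)), Finset.card_insert_of_notMem hj]
    ring

end Pool.Agent.Helper549.ZS.C
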