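import Mathlib
import Pool.Agent.Helper549.ZS.Defs
set_option autoImplicit false
noncomputable section
open Finset

namespace Pool.Agent.Helper549.ZS.D

theorem mem_sh (T : Finset ℝ) (a t : ℝ) : t ∈ sh T a ↔ t + a ∈ T := by
  unfold sh
  rw [Finset.mem_image]
  constructor
  · rintro ⟨s, hs, rfl⟩
    rwa [sub_add_cancel]
  · intro h
    exact ⟨t + a, h, by ring⟩

theorem card_sh (T : Finset ℝ) (a : ℝ) : (sh T a).card = T.card := by
  unfold sh
  exact Finset.card_image_of_injective _ sub_left_injective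

theorem card_union_inter_sh (T : Finset ℝ) (a : ℝ) :
    (T ∪ sh T a).card + (T ∩ sh T a).card = 2 * T.card := by
  rw [Finset.card_union_add_card_inter, card_sh]; ring

/-- a nonempty finite set is not invariant under a nonzero translation -/
theorem card_lt_union_sh (T : Finset ℝ) (a : ℝ) (ha : a ≠ 0) (hT : T.Nonempty) :
    T.card + 1 ≤ (T ∪ sh T a).card := by
  by_contra hcon
  have h1 : (T ∪ sh T a).card ≤ T.card := by omega
  have h2 : T = T ∪ sh T a := Finset.eq_of_subset_of_card_le Finset.subset_union_left h1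
  have h3 : sh T a ⊆ T := by
    rw [h2]
    refine Finset.Subset.trans ?_ Finset.subset_union_right
    rw [← h2]
  have h4 : sh T a = T := Finset.eq_of_subset_of_card_le h3 (by rw [card_sh])
  have h5 : ∀ t, t + a ∈ T ↔ t ∈ T := fun t => by
    rw [← mem_sh, h4]
  rcases lt_or_gt_of_ne ha with ha | ha
  · have hm := T.min'_mem hT
    have := T.min'_le _ ((h5 (T.min' hT)).2 hm)
    linarith
  · have hm := T.max'_mem hT
    have := T.le_max' _ ((h5 (T.max' hT)).2 hm)
    linarith

theorem card_sdiff_sh_neg (W : Finset ℝ) (a : ℝ) :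
    (W \ sh W (-a)).card = (W \ sh W a).card := by
  have h1 := Finset.card_sdiff_add_card_inter W (sh W a)
  have h2 := Finset.card_sdiff_add_card_inter W (sh W (-a))
  have h3 : (W ∩ sh W a).card = (W ∩ sh W (-a)).card := by
    rw [← Finset.card_image_of_injective (W ∩ sh W a) (add_left_injective a)]
    congr 1
    ext t
    simp only [Finset.mem_image, Finset.mem_inter, mem_sh]
    constructor
    · rintro ⟨s, ⟨h1, h2⟩, rfl⟩
      exact ⟨h2, by rwa [add_neg_cancel_right]⟩
    · rintro ⟨h1, h2⟩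
      exact ⟨t + -a, ⟨h2, by rwa [neg_add_cancel_right]⟩, by ring⟩
  omega

theorem two_chain_pos (W : Finset ℝ) (a b : ℝ) (ha : 0 < a) (hb : 0 < b) (hab : a ≠ b)
    (h1 : (W \ sh W a).card ≤ 1) (h2 : (W \ sh W b).card ≤ 1) : W.card ≤ 1 := by
  by_contra hcon
  have hW : W.Nonempty := by
    rw [← Finset.card_pos]; omega
  set m := W.max' hW with hm
  have hmW : m ∈ W := W.max'_mem hW
  have hW' : (W.erase m).Nonempty := by
    rw [← Finset.card_pos, Finset.card_erase_of_mem hmW]; omega
  set m' := (W.erase m).max' hW' with hm'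
  have hm'W' : m' ∈ W.erase m := (W.erase m).max'_mem hW'
  have hm'W : m' ∈ W := Finset.mem_of_mem_erase hm'W'
  have hne : m' ≠ m := Finset.ne_of_mem_erase hm'W'
  have key : ∀ c : ℝ, 0 < c → (W \ sh W c).card ≤ 1 → m' + c = m := by
    intro c hc h
    have e1 : m ∈ W \ sh W c := by
      rw [Finset.mem_sdiff, mem_sh]
      refine ⟨hmW, fun h => ?_⟩
      have := W.le_max' _ h
      linarith
    have e2 : m' + c ∈ W := by
      by_contra h3
      have e3 : m' ∈ W \ sh W c := by
        rw [Finset.mem_sdiff, mem_sh]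
        exact ⟨hm'W, h3⟩
      exact hne (Finset.card_le_one.1 h _ e3 _ e1)
    by_contra h4
    have e4 : m' + c ∈ W.erase m := Finset.mem_erase.2 ⟨h4, e2⟩
    have := (W.erase m).le_max' _ e4
    linarith
  have k1 := key a ha h1
  have k2 := key b hb h2
  exact hab (by linarith)

/-- a set which loses at most one element under two essentially different translations
has at most one element -/
theorem two_chain (W : Finset ℝ) (a b : ℝ) (ha : a ≠ 0) (hb : b ≠ 0) (hab : |a| ≠ |b|)
    (h1 : (W \ sh W a).card ≤ 1) (h2 : (W \ sh W b).card ≤ 1) : W.card ≤ 1 := by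
  have key : ∀ c : ℝ, (W \ sh W c).card ≤ 1 → (W \ sh W |c|).card ≤ 1 := by
    intro c hc
    rcases abs_choice c with h | h
    · rwa [h]
    · rw [h, card_sdiff_sh_neg]; exact hc
  exact two_chain_pos W |a| |b| (abs_pos.2 ha) (abs_pos.2 hb) hab (key a h1) (key b h2)

theorem chain_union (T : Finset ℝ) (a : ℝ) (h : (T \ sh T a).card ≤ 1) :
    ((T ∪ sh T a) \ sh (T ∪ sh T a) a).card ≤ 1 := by
  refine (Finset.card_le_card ?_).trans h
  intro u hu
  rw [Finset.mem_sdiff, mem_sh, Finset.mem_union, Finset.mem_union, mem_sh, mem_sh, not_or] at hu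
  rw [Finset.mem_sdiff, mem_sh]
  obtain ⟨h1, h2, h3⟩ := hu
  rcases h1 with h1 | h1
  · exact ⟨h1, h2⟩
  · exact absurd h1 h2

theorem chain_inter (T : Finset ℝ) (a : ℝ) (h : (T \ sh T a).card ≤ 1) :
    ((T ∩ sh T a) \ sh (T ∩ sh T a) a).card ≤ 1 := by
  refine (Finset.card_le_card_of_injOn (fun v => v + a) ?_ (add_left_injective a).injOn).trans h
  intro v hv
  simp only [Finset.mem_coe] at hv ⊢
  rw [Finset.mem_sdiff, mem_sh, Finset.mem_inter, Finset.mem_inter, mem_sh, mem_sh] at hv
  rw [Finset.mem_sdiff, mem_sh]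
  obtain ⟨⟨h1, h2⟩, h3⟩ := hv
  exact ⟨h2, fun h4 => h3 ⟨h2, h4⟩⟩

end Pool.Agent.Helper549.ZS.D
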