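import Mathlib
import Pool.Agent.Helper549.ZS.Defs
set_option autoImplicit false
noncomputable section
open Finset

namespace Pool.Agent.Helper549.ZS.F

theorem pair_select {ι : Type*} [DecidableEq ι] (f : ι → ℝ) (I : Finset ι) (k : ℕ)
    (h2 : 2 * (k + 1) ≤ I.card)
    (hcl : ∀ c : ℝ, (I.filter (fun i => f i = c)).card + (k + 1) ≤ I.card) :
    ∃ i ∈ I, ∃ j ∈ I, i ≠ j ∧ f i ≠ f j ∧
      ∀ c : ℝ, (((I.erase i).erase j).filter (fun i => f i = c)).card + k
        ≤ ((I.erase i).erase j).card := by
  classical
  have hex : ∀ c : ℝ, ∃ j ∈ I, f j ≠ c := by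
    intro c
    by_contra hcon
    push Not at hcon
    have h1 : I.filter (fun i => f i = c) = I := Finset.filter_true_of_mem hcon
    have h3 := hcl c
    rw [h1] at h3
    omega
  have hmain : ∃ i ∈ I, ∃ j ∈ I, f i ≠ f j ∧
      ∀ c : ℝ, (I.filter (fun i => f i = c)).card + (k + 1) = I.card → c = f i ∨ c = f j := by
    by_cases hfull : ∃ c1 : ℝ, (I.filter (fun i => f i = c1)).card + (k + 1) = I.card
    · obtain ⟨c1, hc1⟩ := hfull
      have hne1 : (I.filter (fun i => f i = c1)).Nonempty := by
        rw [← Finset.card_pos]; omega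
      obtain ⟨i, hi⟩ := hne1
      rw [Finset.mem_filter] at hi
      by_cases hfull2 : ∃ c2 : ℝ, c2 ≠ c1 ∧
          (I.filter (fun i => f i = c2)).card + (k + 1) = I.card
      · obtain ⟨c2, hc21, hc2⟩ := hfull2
        have hne2 : (I.filter (fun i => f i = c2)).Nonempty := by
          rw [← Finset.card_pos]; omega
        obtain ⟨j, hj⟩ := hne2
        rw [Finset.mem_filter] at hj
        refine ⟨i, hi.1, j, hj.1, ?_, ?_⟩
        · rw [hi.2, hj.2]; exact fun h => hc21 h.symm
        · intro c hc
          rw [hi.2, hj.2]
          by_contra hcon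
          push Not at hcon
          obtain ⟨n1, n2⟩ := hcon
          have hd12 : Disjoint (I.filter (fun i => f i = c1)) (I.filter (fun i => f i = c2)) := by
            rw [Finset.disjoint_left]
            intro x hx1 hx2
            rw [Finset.mem_filter] at hx1 hx2
            exact hc21 (hx2.2.symm.trans hx1.2)
          have hd3 : Disjoint (I.filter (fun i => f i = c1) ∪ I.filter (fun i => f i = c2))
              (I.filter (fun i => f i = c)) := by
            rw [Finset.disjoint_left]
            intro x hx1 hx2
            rw [Finset.mem_union, Finset.mem_filter, Finset.mem_filter] at hx1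
            rw [Finset.mem_filter] at hx2
            rcases hx1 with hx1 | hx1
            · exact n1 (hx2.2.symm.trans hx1.2)
            · exact n2 (hx2.2.symm.trans hx1.2)
          have hsub : (I.filter (fun i => f i = c1) ∪ I.filter (fun i => f i = c2)) ∪
              (I.filter (fun i => f i = c)) ⊆ I := by
            intro x hx
            simp only [Finset.mem_union, Finset.mem_filter] at hx
            tauto
          have hcard := Finset.card_le_card hsub
          rw [Finset.card_union_of_disjoint hd3, Finset.card_union_of_disjoint hd12] at hcard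
          omega
      · obtain ⟨j, hj, hjc⟩ := hex c1
        refine ⟨i, hi.1, j, hj, ?_, ?_⟩
        · rw [hi.2]; exact fun h => hjc h.symm
        · intro c hc
          left
          rw [hi.2]
          by_contra hcon
          exact hfull2 ⟨c, hcon, hc⟩
    · have hI : I.Nonempty := by
        rw [← Finset.card_pos]; omega
      obtain ⟨i, hi⟩ := hI
      obtain ⟨j, hj, hjc⟩ := hex (f i)
      exact ⟨i, hi, j, hj, fun h => hjc h.symm, fun c hc => absurd ⟨c, hc⟩ hfull⟩
  obtain ⟨i, hi, j, hj, hij, hfull⟩ := hmain
  have hne : i ≠ j := fun h => hij (by rw [h])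
  refine ⟨i, hi, j, hj, hne, hij, ?_⟩
  intro c
  have hjI : j ∈ I.erase i := Finset.mem_erase.2 ⟨hne.symm, hj⟩
  have hJ : ((I.erase i).erase j).card = I.card - 2 := by
    rw [Finset.card_erase_of_mem hjI, Finset.card_erase_of_mem hi]
    omega
  rw [hJ]
  have hsub0 : ((I.erase i).erase j).filter (fun i => f i = c) ⊆ I.filter (fun i => f i = c) := by
    intro x hx
    simp only [Finset.mem_filter, Finset.mem_erase] at hx ⊢
    exact ⟨hx.1.2.2, hx.2⟩
  have h0 := Finset.card_le_card hsub0
  have h1 := hcl c
  by_cases hc : (I.filter (fun i => f i = c)).card + (k + 1) = I.card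
  · rcases hfull c hc with h | h
    · have hsub : ((I.erase i).erase j).filter (fun i => f i = c) ⊆
          (I.filter (fun i => f i = c)).erase i := by
        intro x hx
        simp only [Finset.mem_filter, Finset.mem_erase] at hx ⊢
        exact ⟨hx.1.2.1, hx.1.2.2, hx.2⟩
      have h2' := Finset.card_le_card hsub
      rw [Finset.card_erase_of_mem (Finset.mem_filter.2 ⟨hi, h.symm⟩)] at h2'
      omega
    · have hsub : ((I.erase i).erase j).filter (fun i => f i = c) ⊆
          (I.filter (fun i => f i = c)).erase j := by
        intro x hx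
        simp only [Finset.mem_filter, Finset.mem_erase] at hx ⊢
        exact ⟨hx.1.1, hx.1.2.2, hx.2⟩
      have h2' := Finset.card_le_card hsub
      rw [Finset.card_erase_of_mem (Finset.mem_filter.2 ⟨hj, h.symm⟩)] at h2'
      omega
  · omega

end Pool.Agent.Helper549.ZS.F
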