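import Mathlib
import Pool.Agent.Helper549.ZS.Defs
import Pool.Agent.Helper549.ZS.A
import Pool.Agent.Helper549.ZS.C
set_option autoImplicit false
noncomputable section
open Finset

namespace Pool.Agent.Helper549.ZS.P
open Pool.Agent.Helper549.ZS.A Pool.Agent.Helper549.ZS.C

theorem windows {ι : Type*} [DecidableEq ι] (y : ι → ℝ) (I : Finset ι) (K : ℝ)
    (Λ : ℕ) (h : ∀ a, N y I (Set.Ico a (a + K)) ≤ Λ) (a : ℝ) (m : ℕ) :
    N y I (Set.Ico a (a + m * K)) ≤ m * Λ := by
  induction m with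
  | zero => simp [N_empty_set]
  | succ m ih =>
    have h1 : Set.Ico a (a + ((m + 1 : ℕ) : ℝ) * K) ⊆
        Set.Ico a (a + m * K) ∪ Set.Ico (a + m * K) (a + m * K + K) := by
      rintro t ⟨h2, h3⟩
      push_cast at h3
      rcases lt_or_ge t (a + m * K) with h4 | h4
      · exact Or.inl ⟨h2, h4⟩
      · exact Or.inr ⟨h4, by linarith⟩
    calc _ ≤ _ := N_mono y I _ _ h1
      _ ≤ _ := N_union_le y I _ _
      _ ≤ m * Λ + Λ := add_le_add ih (h _)
      _ = (m + 1) * Λ := by ring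

theorem seg_zero (a : ℝ) : seg a 0 = ∅ := by
  ext t
  simp [seg]

theorem seg_base {ι : Type*} [DecidableEq ι] (y : ι → ℝ) (I : Finset ι) (K : ℝ) (hK : 0 < K)
    (Λ : ℕ) (h : ∀ a, N y I (Set.Ico a (a + K)) ≤ Λ) (a : ℝ) (L : ℕ) :
    (N y I (seg a L) : ℝ) ≤ Λ * ((L : ℝ) / K + (G 0 (L : ℤ) : ℝ)) := by
  rcases Nat.eq_zero_or_pos L with h0 | h0
  · subst h0
    rw [seg_zero, N_empty_set]
    simp [G]
  · have h1 : G 0 (L : ℤ) = 1 := by
      show Int.sign (L : ℤ) = 1
      exact Int.sign_eq_one_of_pos (by exact_mod_cast h0)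
    rw [h1]
    have h2 : seg a L ⊆ Set.Ico a (a + (⌈(L : ℝ) / K⌉₊ : ℝ) * K) := by
      rintro t ⟨k, hk, rfl⟩
      refine ⟨by linarith [(Nat.cast_nonneg k : (0 : ℝ) ≤ k)], ?_⟩
      have h3 : (L : ℝ) / K ≤ (⌈(L : ℝ) / K⌉₊ : ℝ) := Nat.le_ceil _
      rw [div_le_iff₀ hK] at h3
      have h4 : (k : ℝ) < L := by exact_mod_cast hk
      linarith
    have h5 := (N_mono y I _ _ h2).trans (windows y I K Λ h a _)
    have h6 : (⌈(L : ℝ) / K⌉₊ : ℝ) < (L : ℝ) / K + 1 := Nat.ceil_lt_add_one (by positivity)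
    have h7 : (N y I (seg a L) : ℝ) ≤ (⌈(L : ℝ) / K⌉₊ : ℝ) * Λ := by exact_mod_cast h5
    have h8 : (0 : ℝ) ≤ Λ := Nat.cast_nonneg _
    push_cast
    nlinarith

theorem seg_union (b : ℝ) (L : ℕ) : seg b (L + 1) ∪ seg (b + 1) (L + 1) = seg b (L + 2) := by
  ext t
  constructor
  · rintro (⟨k, hk, rfl⟩ | ⟨k, hk, rfl⟩)
    · exact ⟨k, by omega, rfl⟩
    · exact ⟨k + 1, by omega, by push_cast; ring⟩
  · rintro ⟨k, hk, rfl⟩
    rcases Nat.eq_zero_or_pos k with h0 | h0
    · subst h0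
      exact Or.inl ⟨0, by omega, rfl⟩
    · obtain ⟨m, rfl⟩ := Nat.exists_eq_succ_of_ne_zero h0.ne'
      exact Or.inr ⟨m, by omega, by push_cast; ring⟩

theorem seg_inter (b : ℝ) (L : ℕ) : seg b (L + 1) ∩ seg (b + 1) (L + 1) = seg (b + 1) L := by
  ext t
  constructor
  · rintro ⟨⟨k, hk, rfl⟩, ⟨m, hm, h⟩⟩
    have h1 : (k : ℝ) = ((m + 1 : ℕ) : ℝ) := by push_cast; linarith
    have h2 : k = m + 1 := by exact_mod_cast h1
    exact ⟨m, by omega, by linarith⟩
  · rintro ⟨k, hk, rfl⟩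
    exact ⟨⟨k + 1, by omega, by push_cast; ring⟩, ⟨k, by omega, rfl⟩⟩

theorem seg_pair {ι : Type*} [DecidableEq ι] (y : ι → ℝ) (I : Finset ι) (b : ℝ) (L : ℕ) :
    N y I (seg b (L + 1)) + N y I (seg (b + 1) (L + 1)) =
      N y I (seg b (L + 2)) + N y I (seg (b + 1) L) := by
  rw [← N_modular, seg_union, seg_inter]

theorem seg_step {ι : Type*} [DecidableEq ι] (y : ι → ℝ) (I J : Finset ι) (hd : Disjoint I J)
    (hJ : ∀ i ∈ J, y i = 1 ∨ y i = -1) (K : ℝ) (hK : 0 < K)
    (Λ : ℕ) (h : ∀ a, N y I (Set.Ico a (a + K)) ≤ Λ) (a : ℝ) (L : ℕ) :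
    (N y (I ∪ J) (seg a L) : ℝ) ≤ Λ * (2 ^ J.card * ((L : ℝ) / K) + (G J.card (L : ℤ) : ℝ)) := by
  induction J using Finset.induction_on generalizing a L with
  | empty =>
    rw [Finset.union_empty, Finset.card_empty, pow_zero, one_mul]
    exact seg_base y I K hK Λ h a L
  | insert i J hi ih =>
    rw [Finset.disjoint_insert_right] at hd
    have hiI : i ∉ I ∪ J := by
      rw [Finset.mem_union]
      rintro (h1 | h1)
      · exact hd.1 h1
      · exact hi h1
    rw [Finset.union_insert, Finset.card_insert_of_notMem hi]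
    have ih' := ih hd.2 (fun k hk => hJ k (Finset.mem_insert_of_mem hk))
    rcases Nat.eq_zero_or_pos L with h0 | h0
    · subst h0
      rw [seg_zero, N_empty_set]
      have h1 : G (J.card + 1) 0 = 0 := by
        have := G_neg (J.card + 1) 0
        rw [neg_zero] at this
        omega
      simp [h1]
    · obtain ⟨M, rfl⟩ := Nat.exists_eq_succ_of_ne_zero h0.ne'
      rw [Nat.succ_eq_add_one, N_insert y (I ∪ J) i hiI]
      have key : ∃ b : ℝ, N y (I ∪ J) (seg a (M + 1)) +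
          N y (I ∪ J) {t | t + y i ∈ seg a (M + 1)} =
          N y (I ∪ J) (seg b (M + 2)) + N y (I ∪ J) (seg (b + 1) M) := by
        rcases hJ i (Finset.mem_insert_self i J) with hy | hy
        · refine ⟨a - 1, ?_⟩
          have h2 : {t | t + y i ∈ seg a (M + 1)} = seg (a - 1) (M + 1) := by
            ext t
            rw [hy]
            constructor
            · rintro ⟨k, hk, h3⟩
              exact ⟨k, hk, by linarith⟩
            · rintro ⟨k, hk, rfl⟩
              exact ⟨k, hk, by ring⟩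
          rw [h2, ← seg_pair, add_comm]
          congr 2
          ring_nf
        · refine ⟨a, ?_⟩
          have h2 : {t | t + y i ∈ seg a (M + 1)} = seg (a + 1) (M + 1) := by
            ext t
            rw [hy]
            constructor
            · rintro ⟨k, hk, h3⟩
              exact ⟨k, hk, by linarith⟩
            · rintro ⟨k, hk, rfl⟩
              exact ⟨k, hk, by ring⟩
          rw [h2, ← seg_pair]
      obtain ⟨b, hb⟩ := key
      rw [hb]
      have h3 := ih' b (M + 2)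
      have h4 := ih' (b + 1) M
      have h5 : (G (J.card + 1) ((M + 1 : ℕ) : ℤ) : ℝ) =
          (G J.card ((M + 2 : ℕ) : ℤ) : ℝ) + (G J.card (M : ℤ) : ℝ) := by
        rw [← Int.cast_add]
        congr 1
        show G J.card (((M + 1 : ℕ) : ℤ) + 1) + G J.card (((M + 1 : ℕ) : ℤ) - 1) = _
        congr 2
        push_cast
        ring
      rw [h5]
      push_cast at h3 h4 ⊢
      have h6 : (Λ : ℝ) * (2 ^ (J.card + 1) * (((M : ℝ) + 1) / K) +
          ((G J.card ((M : ℤ) + 2) : ℝ) + (G J.card (M : ℤ) : ℝ))) =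
          Λ * (2 ^ J.card * (((M : ℝ) + 2) / K) + (G J.card ((M : ℤ) + 2) : ℝ)) +
          Λ * (2 ^ J.card * ((M : ℝ) / K) + (G J.card (M : ℤ) : ℝ)) := by
        rw [pow_succ]
        field_simp
        ring
      rw [h6]
      exact add_le_add h3 h4

end Pool.Agent.Helper549.ZS.P
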