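import Mathlib
import Pool.Agent.Helper549.ZS.Defs
set_option autoImplicit false
noncomputable section
open Finset

namespace Pool.Agent.Helper549.ZS.R

theorem weak_type {ι : Type*} [DecidableEq ι] (w : ι → ℝ) (I : Finset ι) (D : ℝ) (hD : 0 ≤ D)
    (h : ∀ K : ℝ, 0 < K → K ^ 2 * ((I.filter (fun i => K ≤ |w i|)).card : ℝ) ≤ D) :
    ∑ i ∈ I, |w i| ≤ 2 * Real.sqrt (D * I.card) := by
  generalize hm : I.card = m
  induction m generalizing I with
  | zero =>
    rw [Finset.card_eq_zero] at hm
    subst hm
    simp
  | succ k ih =>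
    have hne : I.Nonempty := by
      rw [← Finset.card_pos, hm]; exact Nat.succ_pos k
    obtain ⟨i, hi, hmin⟩ := Finset.exists_min_image I (fun i => |w i|) hne
    have hcard : (I.erase i).card = k := by
      rw [Finset.card_erase_of_mem hi, hm]; rfl
    have hsub := ih (I.erase i) (fun K hK => by
      refine le_trans ?_ (h K hK)
      apply mul_le_mul_of_nonneg_left _ (sq_nonneg K)
      exact_mod_cast Finset.card_le_card (Finset.filter_subset_filter _ (Finset.erase_subset i I))) hcard
    rw [← Finset.add_sum_erase I (fun i => |w i|) hi]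
    set K := |w i| with hK
    have hK0 : 0 ≤ K := abs_nonneg _
    have hKD : K ^ 2 * ((k : ℝ) + 1) ≤ D := by
      rcases hK0.eq_or_lt with h0 | h0
      · rw [← h0]; simpa using hD
      · have h1 := h K h0
        rw [Finset.filter_true_of_mem (fun j hj => hmin j hj), hm] at h1
        push_cast at h1
        exact h1
    push_cast
    have hk0 : (0 : ℝ) ≤ k := Nat.cast_nonneg k
    set a := Real.sqrt (D * k) with ha
    set b := Real.sqrt (D * ((k : ℝ) + 1)) with hb
    have ha2 : a ^ 2 = D * k := Real.sq_sqrt (by positivity)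
    have hb2 : b ^ 2 = D * ((k : ℝ) + 1) := Real.sq_sqrt (by positivity)
    have ha0 : 0 ≤ a := Real.sqrt_nonneg _
    have hb0 : 0 ≤ b := Real.sqrt_nonneg _
    have hab : a ≤ b := Real.sqrt_le_sqrt (by nlinarith)
    have hKb : K * b ≤ D := by
      apply le_of_sq_le_sq _ hD
      calc (K * b) ^ 2 = D * (K ^ 2 * ((k : ℝ) + 1)) := by rw [mul_pow, hb2]; ring
        _ ≤ D * D := mul_le_mul_of_nonneg_left hKD hD
        _ = D ^ 2 := by ring
    have hfin : K ≤ 2 * (b - a) := by
      rcases hb0.eq_or_lt with h0 | h0
      · have hD0 : D = 0 := by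
          have h1 : D * ((k : ℝ) + 1) = 0 := by rw [← hb2, ← h0]; ring
          rcases mul_eq_zero.1 h1 with h2 | h2
          · exact h2
          · linarith
        rw [hD0] at hKD
        have h3 : K = 0 := by
          have h4 : K ^ 2 ≤ 0 := by nlinarith [sq_nonneg K]
          exact pow_eq_zero_iff (two_ne_zero) |>.1 (le_antisymm h4 (sq_nonneg K))
        rw [h3]; linarith
      · have h1 : D ≤ (b - a) * (2 * b) := by
          have h2 : D = (b - a) * (b + a) := by nlinarith
          rw [h2]
          exact mul_le_mul_of_nonneg_left (by linarith) (sub_nonneg.2 hab)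
        have h3 : K * b ≤ (2 * (b - a)) * b := by linarith
        exact le_of_mul_le_mul_right h3 h0
    linarith

end Pool.Agent.Helper549.ZS.R
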