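import Mathlib
import Pool.Agent.Helper549.ZS.Defs
import Pool.Agent.Helper549.ZS.C
set_option autoImplicit false
noncomputable section
open Finset

namespace Pool.Agent.Helper549.ZS.W
open Pool.Agent.Helper549.ZS.C

theorem N_window {ι : Type*} [DecidableEq ι] (y : ι → ℝ) (I : Finset ι) (K : ℝ) (hK : 0 < K)
    (hy : ∀ i ∈ I, K ≤ |y i|) (a : ℝ) :
    N y I (Set.Ico a (a + K)) ≤ I.card.choose (I.card / 2) := by
  classical
  have hN : N y I (Set.Ico a (a + K)) =
      (I.powerset.filter (fun B => ∑ i ∈ B, y i ∈ Set.Ico a (a + K))).card := by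
    unfold N
    congr
  rw [hN]
  set F := I.powerset.filter (fun B => ∑ i ∈ B, y i ∈ Set.Ico a (a + K)) with hF
  set Ng := I.filter (fun i => y i < 0) with hNg
  have hNI : Ng ⊆ I := Finset.filter_subset _ _
  have hsub : ∀ B, B ⊆ I → symmDiff B Ng ⊆ I := by
    intro B hB x hx
    rcases Finset.mem_symmDiff.1 hx with h | h
    · exact hB h.1
    · exact hNI h.1
  -- the sum identity
  have hsum : ∀ B, B ⊆ I → ∑ i ∈ symmDiff B Ng, |y i| = ∑ i ∈ B, y i + ∑ i ∈ Ng, |y i| := by
    intro B hB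
    have e1 : symmDiff B Ng = (B \ Ng) ∪ (Ng \ B) := rfl
    have hd : Disjoint (B \ Ng) (Ng \ B) := disjoint_sdiff_sdiff
    rw [e1, Finset.sum_union hd]
    have h1 : ∑ i ∈ B \ Ng, |y i| = ∑ i ∈ B \ Ng, y i := by
      apply Finset.sum_congr rfl
      intro i hi
      rw [Finset.mem_sdiff] at hi
      apply abs_of_nonneg
      by_contra hneg
      exact hi.2 (Finset.mem_filter.2 ⟨hB hi.1, not_le.1 hneg⟩)
    have h2 : ∑ i ∈ Ng, |y i| = ∑ i ∈ Ng \ B, |y i| + ∑ i ∈ Ng ∩ B, |y i| := by
      rw [← Finset.sum_union (Finset.disjoint_sdiff_inter Ng B), Finset.sdiff_union_inter]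
    have h3 : ∑ i ∈ Ng ∩ B, |y i| = - ∑ i ∈ B ∩ Ng, y i := by
      rw [← Finset.sum_neg_distrib, Finset.inter_comm]
      apply Finset.sum_congr rfl
      intro i hi
      have := (Finset.mem_filter.1 (Finset.mem_inter.1 hi).2).2
      exact abs_of_neg this
    have h4 : ∑ i ∈ B, y i = ∑ i ∈ B ∩ Ng, y i + ∑ i ∈ B \ Ng, y i := by
      rw [add_comm, ← Finset.sum_union (Finset.disjoint_sdiff_inter B Ng),
        Finset.sdiff_union_inter]
    rw [h1, h2, h3, h4]
    ring
  let φ : Finset ι → Finset {x // x ∈ I} := fun B => (symmDiff B Ng).subtype (· ∈ I)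
  have hφ : ∀ B, B ⊆ I → (φ B).map (Function.Embedding.subtype _) = symmDiff B Ng := by
    intro B hB
    exact Finset.subtype_map_of_mem (fun x hx => hsub B hB hx)
  have hinj : Set.InjOn φ (F : Set (Finset ι)) := by
    intro B1 h1 B2 h2 h
    have k1 : B1 ⊆ I := by
      have := (Finset.mem_filter.1 (Finset.mem_coe.1 h1)).1
      exact Finset.mem_powerset.1 this
    have k2 : B2 ⊆ I := by
      have := (Finset.mem_filter.1 (Finset.mem_coe.1 h2)).1
      exact Finset.mem_powerset.1 this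
    have e : symmDiff B1 Ng = symmDiff B2 Ng := by
      rw [← hφ B1 k1, ← hφ B2 k2, h]
    exact symmDiff_left_inj.1 e
  have hanti : IsAntichain (· ⊆ ·) ((F.image φ : Finset (Finset {x // x ∈ I})) :
      Set (Finset {x // x ∈ I})) := by
    intro C1 hC1 C2 hC2 hne hle
    rw [Finset.mem_coe, Finset.mem_image] at hC1 hC2
    obtain ⟨B1, hB1, rfl⟩ := hC1
    obtain ⟨B2, hB2, rfl⟩ := hC2
    have hB1' := Finset.mem_filter.1 hB1
    have hB2' := Finset.mem_filter.1 hB2
    have k1 : B1 ⊆ I := Finset.mem_powerset.1 hB1'.1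
    have k2 : B2 ⊆ I := Finset.mem_powerset.1 hB2'.1
    have hss : symmDiff B1 Ng ⊆ symmDiff B2 Ng := by
      rw [← hφ B1 k1, ← hφ B2 k2]
      exact Finset.map_subset_map.2 hle
    have hne' : symmDiff B1 Ng ≠ symmDiff B2 Ng := by
      intro h
      apply hne
      show (symmDiff B1 Ng).subtype (· ∈ I) = (symmDiff B2 Ng).subtype (· ∈ I)
      rw [h]
    obtain ⟨x, hx2, hx1⟩ := Finset.exists_of_ssubset (Finset.ssubset_iff_subset_ne.2 ⟨hss, hne'⟩)
    have hxI : x ∈ I := hsub B2 k2 hx2
    have hge : ∑ i ∈ symmDiff B1 Ng, |y i| + K ≤ ∑ i ∈ symmDiff B2 Ng, |y i| := by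
      have h5 : insert x (symmDiff B1 Ng) ⊆ symmDiff B2 Ng := by
        intro z hz
        rcases Finset.mem_insert.1 hz with h | h
        · rw [h]; exact hx2
        · exact hss h
      have h6 := Finset.sum_le_sum_of_subset_of_nonneg h5
        (f := fun i => |y i|) (fun i _ _ => abs_nonneg (y i))
      rw [Finset.sum_insert hx1] at h6
      have := hy x hxI
      linarith
    rw [hsum B1 k1, hsum B2 k2] at hge
    have m1 := hB1'.2
    have m2 := hB2'.2
    rw [Set.mem_Ico] at m1 m2
    linarith [m1.1, m2.2]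
  have hs := hanti.sperner
  rw [Finset.card_image_of_injOn hinj, Fintype.card_coe] at hs
  exact hs

/-- adding further elements costs at most a factor 2 each -/
theorem N_window_add {ι : Type*} [DecidableEq ι] (y : ι → ℝ) (I J : Finset ι) (hd : Disjoint I J)
    (K : ℝ) (Λ : ℕ) (h : ∀ a, N y I (Set.Ico a (a + K)) ≤ Λ) (a : ℝ) :
    N y (I ∪ J) (Set.Ico a (a + K)) ≤ 2 ^ J.card * Λ := by
  revert hd a
  induction J using Finset.induction_on with
  | empty =>
    intro hd a
    simpa using h a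
  | insert j J hj ih =>
    intro hd a
    rw [Finset.disjoint_insert_right] at hd
    have hi : j ∉ I ∪ J := by
      rw [Finset.mem_union, not_or]
      exact ⟨hd.1, hj⟩
    rw [Finset.union_insert, N_insert y (I ∪ J) j hi, Finset.card_insert_of_notMem hj]
    have e : {t : ℝ | t + y j ∈ Set.Ico a (a + K)} = Set.Ico (a - y j) (a - y j + K) := by
      ext t
      simp only [Set.mem_setOf_eq, Set.mem_Ico]
      constructor
      · rintro ⟨h1, h2⟩
        constructor <;> linarith
      · rintro ⟨h1, h2⟩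
        constructor <;> linarith
    rw [e]
    have h1 := ih hd.2 a
    have h2 := ih hd.2 (a - y j)
    rw [pow_succ]
    linarith

end Pool.Agent.Helper549.ZS.W
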