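import Mathlib
import Pool.Agent.Helper549.ZS.Defs
import Pool.Agent.Helper549.ZS.A
import Pool.Agent.Helper549.ZS.C
import Pool.Agent.Helper549.ZS.P
import Pool.Agent.Helper549.ZS.W
import Pool.Agent.Helper549.ZS.Q
import Pool.Agent.Helper549.ZS.R
import Pool.Agent.Helper549.ZS.S
set_option autoImplicit false
noncomputable section
open Finset

namespace Pool.Agent.Helper549.ZS.U1
open Pool.Agent.Helper549.ZS.A Pool.Agent.Helper549.ZS.C Pool.Agent.Helper549.ZS.P Pool.Agent.Helper549.ZS.W Pool.Agent.Helper549.ZS.Q Pool.Agent.Helper549.ZS.R Pool.Agent.Helper549.ZS.S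

theorem case_two {ι : Type*} [DecidableEq ι] (y : ι → ℝ) (n z : ℕ) (Ip Im Iw : Finset ι)
    (h1 : Disjoint Ip Im) (h2 : Disjoint (Ip ∪ Im) Iw)
    (hp : ∀ i ∈ Ip, y i = 1) (hm : ∀ i ∈ Im, y i = -1) (hn : 600 ≤ n)
    (hcard : Ip.card + Im.card + Iw.card + z = n)
    (hz : 200 * (z + 1) ≤ n) (hu : Iw.card ≤ z) (hq : 400 * Im.card ≤ n) :
    (2 : ℝ) ^ z * (N y ((Ip ∪ Im) ∪ Iw) {0} : ℝ) ≤ (n.choose (n / 2) : ℝ) := by
  classical
  by_cases h : ∀ K : ℝ, 0 < K →
      K ^ 2 * ((Iw.filter (fun i => K ≤ |y i|)).card : ℝ) ≤ 25 / 4 * (n : ℝ)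
  · have hw := weak_type y Iw (25 / 4 * (n : ℝ)) (by positivity) h
    exact case_twoB y n z Ip Im Iw h1 h2 hp hm hn hcard hz hu hq hw
  · push Not at h
    obtain ⟨K, hK, hv⟩ := h
    set V := Iw.filter (fun i => K ≤ |y i|) with hV
    have hVsub : V ⊆ Iw := filter_subset _ _
    have hwin : ∀ a, N y V (Set.Ico a (a + K)) ≤ V.card.choose (V.card / 2) := by
      intro a
      exact N_window y V K hK (fun i hi => (mem_filter.1 hi).2) a
    have hwin2 : ∀ a, N y Iw (Set.Ico a (a + K)) ≤
        2 ^ (Iw \ V).card * V.card.choose (V.card / 2) := by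
      intro a
      have h3 := N_window_add y V (Iw \ V) disjoint_sdiff K _ hwin a
      rwa [union_sdiff_of_subset hVsub] at h3
    have hJ : ∀ i ∈ Ip ∪ Im, y i = 1 ∨ y i = -1 := by
      intro i hi
      rcases mem_union.1 hi with h3 | h3
      · exact Or.inl (hp i h3)
      · exact Or.inr (hm i h3)
    have hseg := seg_step y Iw (Ip ∪ Im) h2.symm hJ K hK _ hwin2 0 1
    have hseg0 : seg 0 1 = {0} := by
      ext t
      simp only [seg, Set.mem_setOf_eq, Set.mem_singleton_iff]
      constructor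
      · rintro ⟨k, hk, rfl⟩
        have : k = 0 := by omega
        subst this
        simp
      · rintro rfl
        exact ⟨0, one_pos, by simp⟩
    rw [hseg0, union_comm Iw (Ip ∪ Im)] at hseg
    set M := (Ip ∪ Im).card with hM
    have hMc : M = Ip.card + Im.card := card_union_of_disjoint h1
    have hG : (G M ((1 : ℕ) : ℤ) : ℝ) = (M.choose (M / 2) : ℝ) := by
      have := G_one M
      push_cast
      rw [this]
      simp
    rw [hG] at hseg
    have hu' : Iw.card = V.card + (Iw \ V).card := by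
      have := card_sdiff_add_card_eq_card hVsub
      omega
    set v := V.card with hvd
    set j := (Iw \ V).card with hj
    have hnum := case_twoA_num n M v K hn hK (by omega) (by omega) hv.le
    have hsum : z + j + v + M = n := by omega
    have hlamv : (v.choose (v / 2) : ℝ) = 2 ^ v * lam v := by
      unfold lam; field_simp
    have hlamM : (M.choose (M / 2) : ℝ) = 2 ^ M * lam M := by
      unfold lam; field_simp
    have hlamn : (n.choose (n / 2) : ℝ) = 2 ^ n * lam n := by
      unfold lam; field_simp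
    calc (2 : ℝ) ^ z * (N y ((Ip ∪ Im) ∪ Iw) {0} : ℝ)
        ≤ 2 ^ z * (((2 ^ j * v.choose (v / 2) : ℕ) : ℝ) *
            (2 ^ M * (((1 : ℕ) : ℝ) / K) + (M.choose (M / 2) : ℝ))) :=
          mul_le_mul_of_nonneg_left hseg (by positivity)
      _ = 2 ^ (z + j + v + M) * (lam v * (1 / K + lam M)) := by
          push_cast
          rw [hlamv, hlamM, pow_add, pow_add, pow_add]
          ring
      _ ≤ 2 ^ (z + j + v + M) * lam n := mul_le_mul_of_nonneg_left hnum (by positivity)
      _ = (n.choose (n / 2) : ℝ) := by rw [hsum, hlamn]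

end Pool.Agent.Helper549.ZS.U1
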