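import Mathlib
import Pool.Agent.Helper549.ZS.Defs
import Pool.Agent.Helper549.ZS.A
import Pool.Agent.Helper549.ZS.C
import Pool.Agent.Helper549.ZS.H
import Pool.Agent.Helper549.ZS.U1
set_option autoImplicit false
noncomputable section
open Finset

namespace Pool.Agent.Helper549.ZS.U2
open Pool.Agent.Helper549.ZS.A Pool.Agent.Helper549.ZS.C Pool.Agent.Helper549.ZS.H Pool.Agent.Helper549.ZS.U1

theorem upper_bound_key {n z : ℕ} (x : Fin n → ℝ) (I : Finset (Fin n)) (c : ℝ) (hc : c ≠ 0)
    (hn : 600 ≤ n) (hcard : I.card + z = n) (hz : 200 * (z + 1) ≤ n)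
    (hw : (I.filter (fun i => ¬ (x i = c ∨ x i = -c))).card ≤ z)
    (hq : 400 * (I.filter (fun i => x i = -c)).card ≤ n) :
    2 ^ z * N x I {0} ≤ n.choose (n / 2) := by
  have hdis : Disjoint (I.filter (fun i => x i = c)) (I.filter (fun i => x i = -c)) := by
    refine Finset.disjoint_filter.2 (fun i _ h1 h2 => hc ?_)
    linarith
  have h := case_two (fun i => c⁻¹ * x i) n z (I.filter (fun i => x i = c))
    (I.filter (fun i => x i = -c)) (I.filter (fun i => ¬ (x i = c ∨ x i = -c))) hdis
    (by rw [← Finset.filter_or]; exact Finset.disjoint_filter_filter_not _ _ _)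
    (fun i hi => by
      show c⁻¹ * x i = 1
      rw [(Finset.mem_filter.1 hi).2, inv_mul_cancel₀ hc])
    (fun i hi => by
      show c⁻¹ * x i = -1
      rw [(Finset.mem_filter.1 hi).2, mul_neg, inv_mul_cancel₀ hc]) hn
    (by
      rw [← Finset.card_union_of_disjoint hdis, ← Finset.filter_or,
        Finset.card_filter_add_card_filter_not]
      exact hcard) hz hw hq
  rw [← Finset.filter_or, Finset.filter_union_filter_not_eq, N_scale x I c⁻¹ (inv_ne_zero hc)] at h
  exact_mod_cast h

theorem upper_bound (n r : ℕ) (hr : Odd r) (hn : 200 * r ≤ n) (x : Fin n → ℝ)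
    (hx : ∀ S : Finset (Fin n), S.card = r → ∑ i ∈ S, x i ≠ 0) :
    N x Finset.univ {0} ≤ n.choose (n / 2) := by
  classical
  obtain ⟨s, hs⟩ := hr
  set I : Finset (Fin n) := univ.filter (fun i => x i ≠ 0) with hI
  set J : Finset (Fin n) := univ.filter (fun i => ¬ (x i ≠ 0)) with hJ
  have hIJ : I ∪ J = univ := Finset.filter_union_filter_not_eq _ _
  have hdis : Disjoint I J := Finset.disjoint_filter_filter_not _ _ _
  have hcard : I.card + J.card = n := by
    rw [← Finset.card_union_of_disjoint hdis, hIJ, Finset.card_univ, Fintype.card_fin]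
  have hJ0 : ∀ i ∈ J, x i = 0 := fun i hi => not_not.1 (Finset.mem_filter.1 hi).2
  have hI0 : ∀ i ∈ I, x i ≠ 0 := fun i hi => (Finset.mem_filter.1 hi).2
  have hz : J.card < r := by
    by_contra hcon
    push Not at hcon
    obtain ⟨S, hS, hSc⟩ := Finset.exists_subset_card_eq hcon
    exact hx S hSc (Finset.sum_eq_zero (fun i hi => hJ0 i (hS hi)))
  rw [← hIJ, N_zeros x I J hdis hJ0]
  by_cases hA : ∀ c : ℝ, (I.filter (fun i => |x i| = c)).card + J.card ≤ I.card
  · have h := case_one x J.card I hI0 (by omega) hA {0}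
    rw [Finset.coe_singleton, Finset.card_singleton, hcard, Nat.cast_one, G_one] at h
    exact_mod_cast h
  · push Not at hA
    obtain ⟨c, hc⟩ := hA
    have hle : (I.filter (fun i => |x i| = c)).card ≤ I.card := Finset.card_filter_le _ _
    have hJ1 : 1 ≤ J.card := by omega
    have hcl : 0 < (I.filter (fun i => |x i| = c)).card := by omega
    obtain ⟨i0, hi0⟩ := Finset.card_pos.1 hcl
    rw [Finset.mem_filter] at hi0
    have hcpos : 0 < c := by rw [← hi0.2]; exact abs_pos.2 (hI0 i0 hi0.1)
    have hclass : I.filter (fun i => |x i| = c) = I.filter (fun i => x i = c ∨ x i = -c) := by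
      refine Finset.filter_congr (fun i _ => ?_)
      rw [abs_eq hcpos.le]
    have hadd := Finset.card_filter_add_card_filter_not (s := I) (fun i => x i = c ∨ x i = -c)
    rw [← hclass] at hadd
    have hdPQ : Disjoint (I.filter (fun i => x i = c)) (I.filter (fun i => x i = -c)) := by
      refine Finset.disjoint_filter.2 (fun i _ h1 h2 => ?_)
      linarith
    have hmin : (I.filter (fun i => x i = c)).card < s ∨ (I.filter (fun i => x i = -c)).card < s := by
      by_contra hcon
      push Not at hcon
      obtain ⟨A, hA, hAc⟩ := Finset.exists_subset_card_eq hcon.1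
      obtain ⟨B, hB, hBc⟩ := Finset.exists_subset_card_eq hcon.2
      obtain ⟨j, hj⟩ := Finset.card_pos.1 hJ1
      have hAB : Disjoint A B := Finset.disjoint_of_subset_left hA
        (Finset.disjoint_of_subset_right hB hdPQ)
      have hABI : A ∪ B ⊆ I := Finset.union_subset
        (hA.trans (Finset.filter_subset _ _)) (hB.trans (Finset.filter_subset _ _))
      have hjn : j ∉ A ∪ B := fun h => Finset.disjoint_left.1 hdis (hABI h) hj
      refine hx (insert j (A ∪ B)) ?_ ?_
      · rw [Finset.card_insert_of_notMem hjn, Finset.card_union_of_disjoint hAB, hAc, hBc]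
        omega
      · rw [Finset.sum_insert hjn, Finset.sum_union hAB, hJ0 j hj]
        have e1 : ∑ i ∈ A, x i = (s : ℝ) * c := by
          rw [Finset.sum_congr rfl (fun i hi => (Finset.mem_filter.1 (hA hi)).2),
            Finset.sum_const, hAc, nsmul_eq_mul]
        have e2 : ∑ i ∈ B, x i = (s : ℝ) * (-c) := by
          rw [Finset.sum_congr rfl (fun i hi => (Finset.mem_filter.1 (hB hi)).2),
            Finset.sum_const, hBc, nsmul_eq_mul]
        rw [e1, e2]
        ring
    rcases hmin with h | h
    · refine upper_bound_key x I (-c) (by linarith : -c < 0).ne (by omega) hcard (by omega) ?_ ?_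
      · have : (I.filter (fun i => ¬ (x i = -c ∨ x i = - -c))) =
            (I.filter (fun i => ¬ (x i = c ∨ x i = -c))) := by
          refine Finset.filter_congr (fun i _ => ?_)
          rw [neg_neg, or_comm]
        rw [this]
        omega
      · rw [neg_neg]
        omega
    · exact upper_bound_key x I c hcpos.ne' (by omega) hcard (by omega) (by omega) (by omega)

end Pool.Agent.Helper549.ZS.U2
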