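import Mathlib
import Pool.Agent.Helper549.ZS.Defs
import Pool.Agent.Helper549.ZS.C
set_option autoImplicit false
noncomputable section
open Finset

namespace Pool.Agent.Helper549.ZS.V
open Pool.Agent.Helper549.ZS.C

theorem sum_pair352 (n : ℕ) (x : Fin n → ℝ) (i k : Fin n) (hik : i ≠ k) (B : Finset (Fin n)) :
    ∑ j ∈ B, x j = (if i ∈ B then x i else 0) + (if k ∈ B then x k else 0) +
      ∑ j ∈ B \ {i, k}, x j := by
  rw [← Finset.sum_inter_add_sum_sdiff B {i, k}, Finset.inter_comm, ← Finset.sum_ite_mem,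
    Finset.sum_pair hik]

theorem pair_bound (n : ℕ) (x : Fin n → ℝ) (i k : Fin n) (hi : x i ≠ 0) (hk : x k ≠ 0)
    (hik : |x i| ≠ |x k|) : N x Finset.univ {0} ≤ 2 ^ (n - 2) := by
  classical
  have hne : i ≠ k := fun h => hik (by rw [h])
  have hcard : (Finset.univ \ ({i, k} : Finset (Fin n))).powerset.card = 2 ^ (n - 2) := by
    rw [Finset.card_powerset, Finset.card_sdiff_of_subset (Finset.subset_univ _), Finset.card_univ,
      Fintype.card_fin, Finset.card_pair hne]
  rw [← hcard]
  unfold N
  refine Finset.card_le_card_of_injOn (fun B => B \ {i, k}) ?_ ?_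
  · intro B _
    simp only [Finset.coe_powerset, Set.mem_preimage, Set.mem_powerset_iff, Finset.coe_subset]
    exact Finset.sdiff_subset_sdiff (Finset.subset_univ _) (le_refl _)
  · intro B hB B' hB' h
    have h1 : ∑ j ∈ B, x j = 0 := by
      have := (Finset.mem_filter.1 (Finset.mem_coe.1 hB)).2
      simpa using this
    have h2 : ∑ j ∈ B', x j = 0 := by
      have := (Finset.mem_filter.1 (Finset.mem_coe.1 hB')).2
      simpa using this
    have h0 : B \ {i, k} = B' \ {i, k} := h
    rw [sum_pair352 n x i k hne] at h1 h2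
    rw [h0] at h1
    have h3 : (if i ∈ B then x i else 0) + (if k ∈ B then x k else 0) =
        (if i ∈ B' then x i else 0) + (if k ∈ B' then x k else 0) := by linarith
    have h4 : x i ≠ x k := fun h' => hik (by rw [h'])
    have h5 : x i + x k ≠ 0 := fun h' => hik (by
      rw [eq_neg_of_add_eq_zero_left h', abs_neg])
    have h6 : (i ∈ B ↔ i ∈ B') ∧ (k ∈ B ↔ k ∈ B') := by
      by_cases a1 : i ∈ B <;> by_cases a2 : k ∈ B <;> by_cases a3 : i ∈ B' <;>
        by_cases a4 : k ∈ B' <;> simp only [a1, a2, a3, a4, if_true, if_false] at h3 ⊢ <;>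
        first
          | exact ⟨Iff.rfl, Iff.rfl⟩
          | (simp; done)
          | (exfalso
             first
               | exact h5 (by linarith)
               | exact h4 (by linarith)
               | exact hi (by linarith)
               | exact hk (by linarith))
    ext j
    by_cases hj : j ∈ ({i, k} : Finset (Fin n))
    · rw [Finset.mem_insert, Finset.mem_singleton] at hj
      rcases hj with rfl | rfl
      · exact h6.1
      · exact h6.2
    · have := Finset.ext_iff.1 h0 j
      rw [Finset.mem_sdiff, Finset.mem_sdiff] at this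
      constructor
      · intro h'; exact (this.1 ⟨h', hj⟩).1
      · intro h'; exact (this.2 ⟨h', hj⟩).1

theorem choose_aux352 (q : ℕ) : (2 * q + 2).choose q ≤ 4 ^ q := by
  induction q with
  | zero => simp
  | succ q ih =>
    have h1 : (2 * q + 3 + 1) * (2 * q + 3).choose q = (2 * q + 3 + 1).choose (q + 1) * (q + 1) :=
      Nat.add_one_mul_choose_eq _ _
    have h2 : (2 * q + 2).choose q * (2 * q + 2 + 1) = (2 * q + 2 + 1).choose q * (2 * q + 2 + 1 - q) :=
      Nat.choose_mul_succ_eq _ _
    have h3 : 2 * q + 2 + 1 - q = q + 3 := by omega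
    rw [h3] at h2
    have e1 : 2 * (q + 1) + 2 = 2 * q + 3 + 1 := by ring
    rw [e1]
    have e2 : 2 * q + 2 + 1 = 2 * q + 3 := rfl
    rw [e2] at h2
    set A := (2 * q + 3 + 1).choose (q + 1)
    set B := (2 * q + 3).choose q
    set C := (2 * q + 2).choose q
    have h4 : A * ((q + 1) * (q + 3)) = C * ((2 * q + 4) * (2 * q + 3)) := by
      calc A * ((q + 1) * (q + 3)) = (A * (q + 1)) * (q + 3) := by ring
        _ = ((2 * q + 3 + 1) * B) * (q + 3) := by rw [h1]
        _ = (2 * q + 4) * (B * (q + 3)) := by ring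
        _ = (2 * q + 4) * (C * (2 * q + 3)) := by rw [h2]
        _ = _ := by ring
    have h5 : (2 * q + 4) * (2 * q + 3) ≤ 4 * ((q + 1) * (q + 3)) := by nlinarith
    have h6 : A * ((q + 1) * (q + 3)) ≤ 4 ^ (q + 1) * ((q + 1) * (q + 3)) := by
      rw [h4]
      calc C * ((2 * q + 4) * (2 * q + 3)) ≤ 4 ^ q * (4 * ((q + 1) * (q + 3))) :=
            Nat.mul_le_mul ih h5
        _ = _ := by ring
    exact Nat.le_of_mul_le_mul_right h6 (by positivity)

theorem choose_bound (m q : ℕ) (h : 2 * q + 2 ≤ m) : 4 * m.choose q ≤ 2 ^ m := by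
  induction m generalizing q with
  | zero => omega
  | succ m ih =>
    rcases Nat.lt_or_ge m (2 * q + 2) with h1 | h1
    · have h2 : m + 1 = 2 * q + 2 := by omega
      rw [h2]
      have h3 := choose_aux352 q
      calc 4 * (2 * q + 2).choose q ≤ 4 * 4 ^ q := Nat.mul_le_mul_left _ h3
        _ = 2 ^ (2 * q + 2) := by rw [pow_add, pow_mul]; norm_num; ring
    · cases q with
      | zero =>
        have h3 := ih 0 (by omega)
        rw [Nat.choose_zero_right] at h3 ⊢
        rw [pow_succ]
        omega
      | succ q =>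
        have h3 := ih (q + 1) h1
        have h4 := ih q (by omega)
        rw [Nat.choose_succ_succ', pow_succ]
        omega

theorem count352 {n : ℕ} (x : Fin n → ℝ) (c : ℝ) (hc : 0 < c) (P Q : Finset (Fin n))
    (hd : Disjoint P Q)
    (hP : ∀ i ∈ P, x i = c) (hQ : ∀ i ∈ Q, x i = -c) :
    N x (P ∪ Q) {0} ≤ (P.card + Q.card).choose Q.card := by
  classical
  have h1 : (Finset.powersetCard Q.card (P ∪ Q)).card = (P.card + Q.card).choose Q.card := by
    rw [Finset.card_powersetCard, Finset.card_union_of_disjoint hd]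
  rw [← h1]
  unfold N
  refine Finset.card_le_card_of_injOn (fun B => symmDiff B Q) ?_ ?_
  · intro B hB
    obtain ⟨hB1, hB2⟩ := Finset.mem_filter.1 (Finset.mem_coe.1 hB)
    have hB1' : B ⊆ P ∪ Q := Finset.mem_powerset.1 hB1
    have hB3 : ∑ j ∈ B, x j = 0 := by simpa using hB2
    have h2 : ∑ j ∈ B \ Q, x j = (B \ Q).card * c := by
      rw [Finset.sum_congr rfl (g := fun _ => c), Finset.sum_const, nsmul_eq_mul]
      intro j hj
      rw [Finset.mem_sdiff] at hj
      have := hB1' hj.1
      rw [Finset.mem_union] at this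
      exact hP j (this.resolve_right hj.2)
    have h3 : ∑ j ∈ B ∩ Q, x j = (B ∩ Q).card * (-c) := by
      rw [Finset.sum_congr rfl (g := fun _ => -c), Finset.sum_const, nsmul_eq_mul]
      intro j hj
      exact hQ j (Finset.mem_inter.1 hj).2
    have h4 : ((B \ Q).card : ℝ) = (B ∩ Q).card := by
      rw [← Finset.sum_inter_add_sum_sdiff B Q, h2, h3] at hB3
      have h5 : (((B \ Q).card : ℝ) - (B ∩ Q).card) * c = 0 := by linarith
      rcases mul_eq_zero.1 h5 with h6 | h6
      · linarith
      · exact absurd h6 hc.ne'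
    have h5 : (B \ Q).card = (B ∩ Q).card := by exact_mod_cast h4
    have h6 : (symmDiff B Q).card = Q.card := by
      rw [symmDiff_def, Finset.sup_eq_union, Finset.card_union_of_disjoint disjoint_sdiff_sdiff, h5,
        Finset.inter_comm]
      exact Finset.card_inter_add_card_sdiff Q B
    rw [Finset.mem_coe, Finset.mem_powersetCard]
    refine ⟨?_, h6⟩
    intro j hj
    rw [Finset.mem_symmDiff] at hj
    rcases hj with hj | hj
    · exact hB1' hj.1
    · exact Finset.mem_union_right _ hj.1
  · intro B _ B' _ h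
    exact symmDiff_left_injective Q h

theorem upper_nm1 (n : ℕ) (hn : 2 ≤ n) (x : Fin n → ℝ)
    (hx : ∀ S : Finset (Fin n), S.card = n - 1 → ∑ i ∈ S, x i ≠ 0) :
    N x Finset.univ {0} ≤ 2 ^ (n - 2) ∨
      (Even n ∧ N x Finset.univ {0} ≤ n.choose (n / 2)) := by
  classical
  by_cases hA : ∃ i k, x i ≠ 0 ∧ x k ≠ 0 ∧ |x i| ≠ |x k|
  · obtain ⟨i, k, hi, hk, hik⟩ := hA
    exact Or.inl (pair_bound n x i k hi hk hik)
  push Not at hA
  have hall : ∀ i, (∑ j, x j) - x i ≠ 0 := by
    intro i h
    refine hx (Finset.univ.erase i) ?_ ?_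
    · rw [Finset.card_erase_of_mem (Finset.mem_univ i), Finset.card_univ, Fintype.card_fin]
    · rw [Finset.sum_erase_eq_sub (Finset.mem_univ i)]
      exact h
  -- a nonzero entry
  have hex : ∃ i, x i ≠ 0 := by
    by_contra h
    push Not at h
    refine hall ⟨0, by omega⟩ ?_
    rw [Finset.sum_eq_zero fun i _ => h i, h]
    simp
  obtain ⟨i0, hi0⟩ := hex
  set c := |x i0| with hc
  have hc0 : 0 < c := abs_pos.2 hi0
  have habs : ∀ i, x i ≠ 0 → |x i| = c := fun i hi => hA i i0 hi hi0
  set P : Finset (Fin n) := Finset.univ.filter fun i => x i = c with hPdef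
  set Q : Finset (Fin n) := Finset.univ.filter fun i => x i = -c with hQdef
  set Z : Finset (Fin n) := Finset.univ.filter fun i => x i = 0 with hZdef
  have hP : ∀ i ∈ P, x i = c := fun i hi => (Finset.mem_filter.1 hi).2
  have hQ : ∀ i ∈ Q, x i = -c := fun i hi => (Finset.mem_filter.1 hi).2
  have hZ : ∀ i ∈ Z, x i = 0 := fun i hi => (Finset.mem_filter.1 hi).2
  have hPQ : Disjoint P Q := by
    rw [Finset.disjoint_left]
    intro i h1 h2
    have := hP i h1
    rw [hQ i h2] at this
    linarith
  have hPQZ : Disjoint (P ∪ Q) Z := by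
    rw [Finset.disjoint_left]
    intro i h1 h2
    have h3 := hZ i h2
    rcases Finset.mem_union.1 h1 with h4 | h4
    · have := hP i h4; linarith
    · have := hQ i h4; linarith
  have hun : P ∪ Q ∪ Z = Finset.univ := by
    ext i
    simp only [Finset.mem_union, Finset.mem_univ, iff_true, hPdef, hQdef, hZdef, Finset.mem_filter,
      true_and]
    by_cases h : x i = 0
    · exact Or.inr h
    · left
      exact eq_or_eq_neg_of_abs_eq (habs i h)
  have hcardn : P.card + Q.card + Z.card = n := by
    rw [← Finset.card_union_of_disjoint hPQ, ← Finset.card_union_of_disjoint hPQZ, hun,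
      Finset.card_univ, Fintype.card_fin]
  have hsum : ∑ j, x j = ((P.card : ℝ) - Q.card) * c := by
    rw [← hun, Finset.sum_union hPQZ, Finset.sum_union hPQ, Finset.sum_congr rfl hP,
      Finset.sum_congr rfl hQ, Finset.sum_congr rfl hZ]
    simp only [Finset.sum_const, nsmul_eq_mul]
    ring
  have hN : N x Finset.univ {0} ≤ 2 ^ Z.card * (P.card + Q.card).choose Q.card := by
    rw [← hun, N_zeros x (P ∪ Q) Z hPQZ hZ]
    exact Nat.mul_le_mul_left _ (count352 x c hc0 P Q hPQ hP hQ)
  rw [hsum] at hall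
  have hfin : ∀ m, 4 * (P.card + Q.card).choose Q.card ≤ 2 ^ m → m = P.card + Q.card →
      N x Finset.univ {0} ≤ 2 ^ (n - 2) := by
    intro m h1 h2
    refine hN.trans ?_
    have hm2 : 2 ≤ m := by
      by_contra hlt
      have h3 : 1 ≤ (P.card + Q.card).choose Q.card := Nat.choose_pos (by omega)
      interval_cases m <;> omega
    obtain ⟨m', rfl⟩ : ∃ m', m = m' + 2 := ⟨m - 2, by omega⟩
    have h3 : (P.card + Q.card).choose Q.card ≤ 2 ^ m' := by
      rw [pow_add] at h1
      omega
    have h4 : n - 2 = Z.card + m' := by omega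
    rw [h4, pow_add]
    exact Nat.mul_le_mul_left _ h3
  rcases Nat.lt_trichotomy P.card Q.card with hlt | heq | hgt
  · left
    obtain ⟨i, hi⟩ : Q.Nonempty := Finset.card_pos.1 (by omega)
    have h1 := hall i
    rw [hQ i hi] at h1
    have h2 : P.card + 1 ≠ Q.card := by
      intro h3
      apply h1
      rw [← h3]
      push_cast
      ring
    refine hfin _ ?_ rfl
    have h3 := choose_bound (P.card + Q.card) P.card (by omega)
    rwa [Nat.choose_symm_add] at h3
  · right
    have hz : Z.card = 0 := by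
      by_contra hz
      obtain ⟨i, hi⟩ : Z.Nonempty := Finset.card_pos.1 (by omega)
      refine hall i ?_
      rw [hZ i hi, heq]
      ring
    have hn2 : n = Q.card + Q.card := by omega
    refine ⟨⟨Q.card, hn2⟩, ?_⟩
    refine hN.trans ?_
    rw [hz, pow_zero, one_mul, heq]
    have h5 : n / 2 = Q.card := by omega
    rw [h5, ← hn2]
  · left
    obtain ⟨i, hi⟩ : P.Nonempty := Finset.card_pos.1 (by omega)
    have h1 := hall i
    rw [hP i hi] at h1
    have h2 : Q.card + 1 ≠ P.card := by
      intro h3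
      apply h1
      rw [← h3]
      push_cast
      ring
    exact hfin _ (choose_bound _ _ (by omega)) rfl

theorem lower_nm1 (n : ℕ) (hn : 2 ≤ n) :
    ∃ x : Fin n → ℝ, (∀ S : Finset (Fin n), S.card = n - 1 → ∑ i ∈ S, x i ≠ 0) ∧
      N x Finset.univ {0} = 2 ^ (n - 2) := by
  classical
  set a : Fin n := ⟨0, by omega⟩ with ha
  set b : Fin n := ⟨1, by omega⟩ with hb
  have hab : a ≠ b := by
    intro h
    simp [ha, hb, Fin.ext_iff] at h
  set x : Fin n → ℝ := fun i => if i ∈ ({a, b} : Finset (Fin n)) then 1 else 0 with hx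
  have hcard : (Finset.univ \ ({a, b} : Finset (Fin n))).card = n - 2 := by
    rw [Finset.card_sdiff_of_subset (Finset.subset_univ _), Finset.card_univ,
      Fintype.card_fin, Finset.card_pair hab]
  have hzero : ∀ S : Finset (Fin n), ∑ i ∈ S, x i = 0 ↔ S ⊆ Finset.univ \ {a, b} := by
    intro S
    rw [Finset.sum_eq_zero_iff_of_nonneg (fun i _ => by simp only [hx]; split_ifs <;> norm_num)]
    constructor
    · intro h i hi
      have h1 := h i hi
      rw [Finset.mem_sdiff]
      refine ⟨Finset.mem_univ _, fun h2 => ?_⟩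
      simp only [hx, h2, if_true] at h1
      exact one_ne_zero h1
    · intro h i hi
      have h1 := (Finset.mem_sdiff.1 (h hi)).2
      simp only [hx, h1, if_false]
  refine ⟨x, fun S hS h => ?_, ?_⟩
  · have h1 := Finset.card_le_card ((hzero S).1 h)
    rw [hcard, hS] at h1
    omega
  · unfold N
    rw [← hcard, ← Finset.card_powerset]
    congr 1
    ext S
    rw [Finset.mem_filter, Finset.mem_powerset, Finset.mem_powerset, Set.mem_singleton_iff, hzero]
    exact ⟨fun h => h.2, fun h => ⟨Finset.subset_univ _, h⟩⟩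

end Pool.Agent.Helper549.ZS.V
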